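import Pool.Agent.H354R3.ZN.All6

set_option autoImplicit false

open MeasureTheory Set H354ZN H354ZN.SP

namespace Pool.Agent.Results.MP_fa837f_gt.SmallDimensions

/-- `F_{p,H}` is log-concave for all `p ≥ 1` when `dim H` is `1`, `2`, `n - 1` or `n`, in particular
for all subspaces when `n ≤ 4`. -/
theorem result (p : ℝ) (hp : 1 ≤ p) (n : ℕ) (H : Sub n) (h1 : 1 ≤ dim H)
    (hH : n ≤ 4 ∨ dim H = 1 ∨ dim H = 2 ∨ dim H + 1 = n ∨ dim H = n) :
    (∀ t : Fin n → ℝ, 0 < F p H t) ∧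
      ∀ (s t : Fin n → ℝ) (l : ℝ), 0 ≤ l → l ≤ 1 →
        F p H s ^ l * F p H t ^ (1 - l) ≤ F p H (fun i => l * s i + (1 - l) * t i) :=
  SP.fin a_SEK a_CU2 t_CNV p hp n H h1 hH

end Pool.Agent.Results.MP_fa837f_gt.SmallDimensions
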